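import Pool.Agent.H624.WS.Stm

/-!
# Piece LW of MP_33144e_an: from the measure `w μ` back to `μ`
-/

set_option autoImplicit false

open MeasureTheory Set Filter Topology
open scoped ENNReal

noncomputable section

namespace Pool.Agent.H338.WS

open Pool.Agent.H624.WS

theorem sLW (h : S_L) : S_LW := by
  intro κ hκ hκ1 Ω _ μ _ X _ _ p _ Λ t w hR hX
  obtain ⟨ht, hw, hw0, hwi, -, hb, hΛ⟩ := hR
  have hti : ∀ x, Integrable (t x) μ := fun x =>
    (hwi.const_mul ‖x‖).mono' (ht x).aestronglyMeasurable (by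
      filter_upwards [hb x] with ω h1
      rwa [Real.norm_eq_abs])
  have hadd : ∀ x y, t (x + y) =ᵐ[μ] fun ω => t x ω + t y ω := by
    intro x y
    apply Integrable.ae_eq_of_forall_setIntegral_eq _ _ (hti _) ((hti x).add (hti y))
    intro s hs _
    rw [integral_add' (hti x).integrableOn (hti y).integrableOn, ← hΛ x s hs, ← hΛ y s hs,
      ← hΛ (x + y) s hs, ← map_add]
    congr 1
    unfold indicatorConstLp
    rw [← MemLp.toLp_add]
    congr 1
    ext ω
    by_cases hω : ω ∈ s <;> simp [hω]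
  have hsmul : ∀ (c : ℝ) x, t (c • x) =ᵐ[μ] fun ω => c * t x ω := by
    intro c x
    apply Integrable.ae_eq_of_forall_setIntegral_eq _ _ (hti _) ((hti x).const_mul c)
    intro s hs _
    rw [integral_const_mul, ← hΛ x s hs, ← hΛ (c • x) s hs, ← smul_eq_mul, ← map_smul]
    congr 1
    unfold indicatorConstLp
    rw [← MemLp.toLp_const_smul]
    congr 1
    ext ω
    by_cases hω : ω ∈ s <;> simp [hω]
  let ν := μ.withDensity (fun ω => ENNReal.ofReal (w ω))
  have hν : IsFiniteMeasure ν := isFiniteMeasure_withDensity_ofReal hwi.2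
  have hνμ : ν ≪ μ := withDensity_absolutelyContinuous _ _
  let f : X → Ω → ℝ := fun x ω => t x ω / w ω
  have hfmeas : ∀ x, Measurable (f x) := fun x => (ht x).div hw
  have hfb : ∀ x, ∀ᵐ ω ∂ν, |f x ω| ≤ ‖x‖ := by
    intro x
    filter_upwards [hνμ.ae_le (hb x)] with ω h1
    show |t x ω / w ω| ≤ ‖x‖
    rcases (hw0 ω).eq_or_lt with h2 | h2
    · rw [← h2, div_zero, abs_zero]
      exact norm_nonneg x
    · rw [abs_div, abs_of_pos h2, div_le_iff₀ h2]
      exact h1
  have hfm : ∀ x, MemLp (f x) 1 ν := by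
    intro x
    refine MemLp.of_bound (hfmeas x).aestronglyMeasurable ‖x‖ ?_
    filter_upwards [hfb x] with ω h1
    rwa [Real.norm_eq_abs]
  let T : X →ₗ[ℝ] Lp ℝ 1 ν :=
    { toFun := fun x => (hfm x).toLp (f x)
      map_add' := by
        intro x y
        rw [← MemLp.toLp_add, MemLp.toLp_eq_toLp_iff]
        filter_upwards [hνμ.ae_le (hadd x y)] with ω h1
        show t (x + y) ω / w ω = t x ω / w ω + t y ω / w ω
        rw [h1, add_div]
      map_smul' := by
        intro c x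
        rw [RingHom.id_apply, ← MemLp.toLp_const_smul, MemLp.toLp_eq_toLp_iff]
        filter_upwards [hνμ.ae_le (hsmul c x)] with ω h1
        show t (c • x) ω / w ω = c • (t x ω / w ω)
        rw [h1, smul_eq_mul, mul_div_assoc] }
  have hT : ∀ x, T x =ᵐ[ν] f x := fun x => (hfm x).coeFn_toLp
  have hTb : ∀ x, ∀ᵐ ω ∂ν, |T x ω| ≤ ‖x‖ := by
    intro x
    filter_upwards [hT x, hfb x] with ω h1 h2
    rwa [h1]
  obtain ⟨X₀, hX₀, hX₁⟩ := h κ hκ hκ1 Ω ν X T hTb hX
  refine ⟨X₀, hX₀, fun x ε hε => ?_⟩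
  obtain ⟨x', hx', h1⟩ := hX₁ x ε hε
  refine ⟨x', hx', ?_⟩
  have h2 : ‖T x - T x'‖ = ∫ ω, |t x ω - t x' ω| ∂μ := by
    rw [L1.norm_eq_integral_norm]
    have h3 : ∫ ω, ‖(T x - T x') ω‖ ∂ν = ∫ ω, ‖f x ω - f x' ω‖ ∂ν := by
      apply integral_congr_ae
      filter_upwards [Lp.coeFn_sub (T x) (T x'), hT x, hT x'] with ω h4 h5 h6
      rw [h4, Pi.sub_apply, h5, h6]
    rw [h3]
    show ∫ ω, ‖f x ω - f x' ω‖ ∂(μ.withDensity (fun ω => ENNReal.ofReal (w ω))) = _
    rw [integral_withDensity_eq_integral_toReal_smul hw.ennreal_ofReal (by simp)]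
    apply integral_congr_ae
    filter_upwards [hb x, hb x'] with ω h4 h5
    rw [ENNReal.toReal_ofReal (hw0 ω), smul_eq_mul, Real.norm_eq_abs]
    show w ω * |t x ω / w ω - t x' ω / w ω| = _
    rcases (hw0 ω).eq_or_lt with h6 | h6
    · rw [← h6, mul_zero] at h4 h5
      have h7 : t x ω = 0 := abs_nonpos_iff.1 h4
      have h8 : t x' ω = 0 := abs_nonpos_iff.1 h5
      rw [h7, h8, ← h6]
      simp
    · rw [← sub_div, abs_div, abs_of_pos h6]
      field_simp
  rw [← h2]
  exact h1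

end Pool.Agent.H338.WS
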